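import Pool.Agent.Run7.h102.LS.Stm

/-! # Reversal and adjacent letters -/

set_option autoImplicit false

namespace Run7.h102.LS

variable {α M : Type} [AddCommGroup M]

/-- the telescoping sum -/
def SS (i : α) (v : List α) : List α → List α → (List α → M) → M
  | p, [], G => sh p (i :: v) G
  | p, b :: q, G => sh p (b :: q ++ i :: v) G + SS i v (b :: p) q G

theorem SS_eq (h2 : ∀ m : M, m + m = 0) (i : α) (v : List α) : ∀ (q p : List α) (G : List α → M),
    SS i v p q G = sh (q.reverse ++ p) v (fun w => G (i :: w)) +
      (match p with
        | [] => 0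
        | a :: p' => sh p' (q ++ i :: v) (fun w => G (a :: w))) := by
  intro q
  induction q with
  | nil =>
    intro p G
    cases p with
    | nil => simp [SS, sh_nil_left]
    | cons a p =>
      rw [SS, sh_cons, add_comm]
      rfl
  | cons b q ih =>
    intro p G
    rw [SS, ih]
    cases p with
    | nil =>
      simp only [sh_nil_left, List.reverse_cons, List.append_nil, List.cons_append, add_zero]
      rw [add_comm, add_assoc, h2, add_zero]
    | cons a p =>
      simp only [List.cons_append, List.reverse_cons, List.append_assoc, List.nil_append]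
      rw [sh_cons]
      have e : ∀ a b c : M, a + b + (c + b) = c + a := by
        intro a b c
        have : a + b + (c + b) = c + a + (b + b) := by abel
        rw [this, h2, add_zero]
      exact e _ _ _

theorem SS_lie {n : ℕ} {G : List α → M} (hG : Lie n G) (i : α) (v : List α) : ∀ (q p : List α),
    p.length + q.length + v.length + 1 = n →
      SS i v p q G = if p = [] then G (q ++ i :: v) else 0 := by
  intro q
  induction q with
  | nil =>
    intro p hp
    rw [SS]
    split_ifs with h
    · subst h; rw [sh_nil_left]; rfl
    · exact hG p (i :: v) h (by simp) (by simp at hp ⊢; omega)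
  | cons b q ih =>
    intro p hp
    rw [SS, ih (b :: p) (by simp at hp ⊢; omega), if_neg (by simp), add_zero]
    split_ifs with h
    · subst h; rw [sh_nil_left]
    · exact hG p _ h (by simp) (by simp at hp ⊢; omega)

theorem anti (h2 : ∀ m : M, m + m = 0) {n : ℕ} {G : List α → M} (hG : Lie n G) (q v : List α) (i : α)
    (hn : q.length + v.length + 1 = n) :
    G (q ++ i :: v) = sh q.reverse v (fun w => G (i :: w)) := by
  have h1 := SS_eq h2 i v q [] G
  rw [SS_lie hG i v q [] (by simpa using hn), if_pos rfl] at h1
  simpa using h1

theorem t_ANTI : S_ANTI := fun _ _ _ _ _ h2 hG q v i hn => anti h2 hG q v i hn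

theorem rev (h2 : ∀ m : M, m + m = 0) {n : ℕ} {G : List α → M} (hG : Lie n G) (l : List α)
    (hn : l.length = n) : G l = G l.reverse := by
  rcases List.eq_nil_or_concat l with h | ⟨q, i, h⟩
  · subst h; rfl
  · subst h
    rw [List.concat_eq_append] at hn ⊢
    have := anti h2 hG q [] i (by simpa using hn)
    rw [this, sh_nil_right, List.reverse_append]
    rfl

/-- if all words with first letter `i` vanish then all words with the letter `i` vanish -/
theorem first (h2 : ∀ m : M, m + m = 0) {n : ℕ} {G : List α → M} (hG : Lie n G) (i : α)
    (h : ∀ w : List α, w.length + 1 = n → G (i :: w) = 0) (q v : List α)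
    (hn : q.length + v.length + 1 = n) : G (q ++ i :: v) = 0 := by
  rw [anti h2 hG q v i hn]
  refine (sh_congr _ _ _ rfl _ (fun _ => 0) fun w hw => h w ?_).trans (sh_zero _ _)
  have := hw.length_eq
  simp at this
  omega

/-- only the word `p j s` contributes -/
theorem sh_top (j : α) : ∀ (p s : List α) (H : List α → M),
    (∀ p' t : List α, p'.length < p.length → p'.length + t.length = p.length + s.length →
      H (p' ++ j :: t) = 0) → sh p (j :: s) H = H (p ++ j :: s) := by
  intro p
  induction p with
  | nil => intro s H _; rw [sh_nil_left]; rfl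
  | cons a p ih =>
    intro s H h
    rw [sh_cons, ih s]
    · have e : sh (a :: p) s (fun w => H (j :: w)) = 0 := by
        refine (sh_congr _ _ _ rfl _ (fun _ => 0) fun w hw => ?_).trans (sh_zero _ _)
        have := hw.length_eq
        simp at this
        exact h [] w (by simp) (by simp; omega)
      rw [e, add_zero]
      rfl
    · intro p' t h1 h2
      exact h (a :: p') t (by simpa using h1) (by simp; omega)

theorem adj1 (h2 : ∀ m : M, m + m = 0) {n : ℕ} {G : List α → M} (hG : Lie n G) (i j : α)
    (h : ∀ p q : List α, p.length + q.length + 2 = n → G (p ++ i :: j :: q) = 0) :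
    ∀ (N : ℕ) (p s : List α), p.length = N → p.length + s.length + 2 = n →
      G (i :: (p ++ j :: s)) = 0 := by
  intro N
  induction N using Nat.strong_induction_on with
  | _ N ih =>
    intro p s hp hn
    have h1 := h p.reverse s (by simpa using hn)
    rw [anti h2 hG p.reverse (j :: s) i (by simp; omega), List.reverse_reverse] at h1
    rw [sh_top j p s] at h1
    · exact h1
    · intro p' t h3 h4
      exact ih p'.length (by omega) p' t rfl (by omega)

theorem adj (h2 : ∀ m : M, m + m = 0) {n : ℕ} {G : List α → M} (hG : Lie n G) (i j : α)
    (h : ∀ p q : List α, p.length + q.length + 2 = n → G (p ++ i :: j :: q) = 0)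
    (p q t : List α) (hn : p.length + q.length + t.length + 2 = n) :
    G (p ++ i :: (q ++ j :: t)) = 0 := by
  -- words starting with `i` vanish
  have h0 : ∀ w : List α, w.length + 1 = n → j ∈ w → G (i :: w) = 0 := by
    intro w hw hj
    obtain ⟨a, b, rfl⟩ := List.append_of_mem hj
    exact adj1 h2 hG i j h _ a b rfl (by simp at hw; omega)
  rw [anti h2 hG p (q ++ j :: t) i (by simp; omega)]
  refine (sh_congr _ _ _ rfl _ (fun _ => 0) fun w hw => h0 w ?_ ?_).trans (sh_zero _ _)
  · have := hw.length_eq
    simp at this
    omega
  · exact hw.mem_iff.2 (by simp)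

theorem t_ADJ : S_ADJ := by
  intro α M _ n G h2 hG i j h p q t hn
  refine ⟨adj h2 hG i j h p q t hn, ?_⟩
  refine adj h2 hG j i ?_ p q t hn
  intro p q hn
  rw [rev h2 hG _ (by simp; omega)]
  have := h q.reverse p.reverse (by simp; omega)
  simpa using this

end Run7.h102.LS
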