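import Mathlib

/-! # Linearized double shuffle polynomials (definitions and basic facts)

`D R r n` is the space of the homogeneous polynomials `f` of degree `n` in `r` variables over a commutative
ring `R` which satisfy the linearized double shuffle equations: both `f(x₁, …, x_r)` and
`f(x₁, x₁ + x₂, …, x₁ + ⋯ + x_r)` are killed by all shuffles of `x₁ … x_i` with `x_{i+1} … x_r`. -/

set_option autoImplicit false

namespace Run7.h102.LS

open MvPolynomial

/-- The sum of `G` over the shuffles of two lists. -/
def sh {α M : Type} [AddCommMonoid M] : List α → List α → (List α → M) → M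
  | [], v, G => G v
  | a :: u, [], G => G (a :: u)
  | a :: u, b :: v, G => sh u (b :: v) (fun w => G (a :: w)) + sh (a :: u) v (fun w => G (b :: w))

/-- `G` is killed by the shuffles of two nonempty words of total length `n`. -/
def Lie {α M : Type} [AddCommMonoid M] (n : ℕ) (G : List α → M) : Prop :=
  ∀ u v : List α, u ≠ [] → v ≠ [] → u.length + v.length = n → sh u v G = 0

/-- The partial sums `[s + a₁, s + a₁ + a₂, …]` of `[a₁, a₂, …]`. -/
def ps {A : Type} [Add A] : A → List A → List A
  | _, [] => []
  | s, a :: l => (s + a) :: ps (s + a) l

/-- The value of a polynomial in `r` variables at a list of `r` elements. -/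
noncomputable def ev {R A : Type} [CommRing R] [CommRing A] [Algebra R A] {r : ℕ}
    (f : MvPolynomial (Fin r) R) (l : List A) : A :=
  aeval (fun i : Fin r => l.getD i 0) f

/-- The list of the variables `x₁, …, x_r`. -/
noncomputable def Xs (R : Type) [CommRing R] (r : ℕ) : List (MvPolynomial (Fin r) R) :=
  (List.finRange r).map X

/-- The linearized double shuffle equations. -/
def IsLS {R : Type} [CommRing R] {r : ℕ} (f : MvPolynomial (Fin r) R) : Prop :=
  ∀ i, 0 < i → i < r → sh ((Xs R r).take i) ((Xs R r).drop i) (ev f) = 0 ∧
    sh ((Xs R r).take i) ((Xs R r).drop i) (fun w => ev f (ps 0 w)) = 0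

section basic
variable {α β M N : Type}

theorem sh_nil_left [AddCommMonoid M] (v : List α) (G : List α → M) : sh [] v G = G v := by
  cases v <;> simp [sh]

theorem sh_nil_right [AddCommMonoid M] (u : List α) (G : List α → M) : sh u [] G = G u := by
  cases u <;> simp [sh]

theorem sh_cons [AddCommMonoid M] (a b : α) (u v : List α) (G : List α → M) :
    sh (a :: u) (b :: v) G = sh u (b :: v) (fun w => G (a :: w)) + sh (a :: u) v (fun w => G (b :: w)) :=
  by rw [sh]

/-- `sh u v G` depends only on the values of `G` at the rearrangements of `u ++ v`. -/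
theorem sh_congr [AddCommMonoid M] (n : ℕ) : ∀ (u v : List α), u.length + v.length = n →
    ∀ (G H : List α → M), (∀ w, w.Perm (u ++ v) → G w = H w) → sh u v G = sh u v H := by
  induction n with
  | zero =>
    intro u v h G H e
    have h1 : u = [] := List.length_eq_zero_iff.1 (by omega)
    subst h1
    rw [sh_nil_left, sh_nil_left]
    exact e v (by simp)
  | succ n ih =>
    intro u v h G H e
    cases u with
    | nil => rw [sh_nil_left, sh_nil_left]; exact e v (by simp)
    | cons a u =>
      cases v with
      | nil => rw [sh_nil_right, sh_nil_right]; exact e _ (by simp)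
      | cons b v =>
        rw [sh_cons, sh_cons]
        simp only [List.length_cons] at h
        congr 1
        · refine ih u (b :: v) (by simp; omega) _ _ fun w hw => e _ ?_
          simpa using hw.cons a
        · refine ih (a :: u) v (by simp; omega) _ _ fun w hw => e _ ?_
          refine (hw.cons b).trans ?_
          simpa using (List.perm_middle (a := b) (l₁ := a :: u) (l₂ := v)).symm

theorem sh_zero [AddCommMonoid M] (u v : List α) : sh u v (fun _ => (0 : M)) = 0 := by
  suffices h : ∀ n, ∀ (u v : List α), u.length + v.length = n → sh u v (fun _ => (0 : M)) = 0 from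
    h _ u v rfl
  intro n
  induction n with
  | zero =>
    intro u v h
    have h1 : u = [] := List.length_eq_zero_iff.1 (by omega)
    subst h1
    rw [sh_nil_left]
  | succ n ih =>
    intro u v h
    cases u with
    | nil => rw [sh_nil_left]
    | cons a u =>
      cases v with
      | nil => rw [sh_nil_right]
      | cons b v =>
        simp only [List.length_cons] at h
        rw [sh_cons, ih u (b :: v) (by simp; omega), ih (a :: u) v (by simp; omega), add_zero]

/-- additive maps commute with the sum over the shuffles -/
theorem sh_hom [AddCommMonoid M] [AddCommMonoid N] (φ : M →+ N) (u v : List α) (G : List α → M) :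
    φ (sh u v G) = sh u v (fun w => φ (G w)) := by
  suffices h : ∀ n, ∀ (u v : List α), u.length + v.length = n → ∀ G : List α → M,
      φ (sh u v G) = sh u v (fun w => φ (G w)) from h _ u v rfl G
  intro n
  induction n with
  | zero =>
    intro u v h G
    have h1 : u = [] := List.length_eq_zero_iff.1 (by omega)
    subst h1
    rw [sh_nil_left, sh_nil_left]
  | succ n ih =>
    intro u v h G
    cases u with
    | nil => rw [sh_nil_left, sh_nil_left]
    | cons a u =>
      cases v with
      | nil => rw [sh_nil_right, sh_nil_right]
      | cons b v =>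
        simp only [List.length_cons] at h
        rw [sh_cons, sh_cons, map_add, ih u (b :: v) (by simp; omega), ih (a :: u) v (by simp; omega)]

/-- substitution of the letters -/
theorem sh_map [AddCommMonoid M] (φ : α → β) (u v : List α) (G : List β → M) :
    sh (u.map φ) (v.map φ) G = sh u v (fun w => G (w.map φ)) := by
  suffices h : ∀ n, ∀ (u v : List α), u.length + v.length = n → ∀ G : List β → M,
      sh (u.map φ) (v.map φ) G = sh u v (fun w => G (w.map φ)) from h _ u v rfl G
  intro n
  induction n with
  | zero =>
    intro u v h G
    have h1 : u = [] := List.length_eq_zero_iff.1 (by omega)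
    subst h1
    rw [List.map_nil, sh_nil_left, sh_nil_left]
  | succ n ih =>
    intro u v h G
    cases u with
    | nil => rw [List.map_nil, sh_nil_left, sh_nil_left]
    | cons a u =>
      cases v with
      | nil => rw [List.map_nil, sh_nil_right, sh_nil_right]
      | cons b v =>
        simp only [List.length_cons] at h
        have e1 := ih u (b :: v) (by simp; omega) (fun w => G (φ a :: w))
        have e2 := ih (a :: u) v (by simp; omega) (fun w => G (φ b :: w))
        rw [List.map_cons, List.map_cons, sh_cons, sh_cons]
        rw [List.map_cons] at e1 e2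
        rw [e1, e2]
        rfl

theorem sh_add [AddCommMonoid M] (u v : List α) (G H : List α → M) :
    sh u v (fun w => G w + H w) = sh u v G + sh u v H := by
  suffices h : ∀ n, ∀ (u v : List α), u.length + v.length = n → ∀ G H : List α → M,
      sh u v (fun w => G w + H w) = sh u v G + sh u v H from h _ u v rfl G H
  intro n
  induction n with
  | zero =>
    intro u v h G H
    have h1 : u = [] := List.length_eq_zero_iff.1 (by omega)
    subst h1
    simp only [sh_nil_left]
  | succ n ih =>
    intro u v h G H
    cases u with
    | nil => simp only [sh_nil_left]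
    | cons a u =>
      cases v with
      | nil => simp only [sh_nil_right]
      | cons b v =>
        simp only [List.length_cons] at h
        rw [sh_cons, sh_cons, sh_cons, ih u (b :: v) (by simp; omega), ih (a :: u) v (by simp; omega)]
        abel

theorem ps_length {A : Type} [Add A] (l : List A) : ∀ s : A, (ps s l).length = l.length := by
  induction l with
  | nil => intro s; rfl
  | cons a l ih => intro s; simp [ps, ih]

theorem ps_map {A B : Type} [Add A] [Add B] (φ : A → B) (hφ : ∀ x y, φ (x + y) = φ x + φ y)
    (l : List A) : ∀ s : A, ps (φ s) (l.map φ) = (ps s l).map φ := by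
  induction l with
  | nil => intro s; rfl
  | cons a l ih =>
    intro s
    simp only [List.map_cons, ps]
    rw [← hφ, ih]

end basic

section evs
variable {R A B : Type} [CommRing R] [CommRing A] [Algebra R A] [CommRing B] [Algebra R B] {r : ℕ}

theorem Xs_length : (Xs R r).length = r := by simp [Xs]

theorem ev_map (f : MvPolynomial (Fin r) R) (φ : A →ₐ[R] B) (l : List A) :
    ev f (l.map φ) = φ (ev f l) := by
  unfold ev
  rw [← AlgHom.comp_apply, MvPolynomial.comp_aeval]
  congr 2
  funext i
  rw [← map_zero φ, List.getD_map]

theorem ev_Xs (f : MvPolynomial (Fin r) R) : ev f (Xs R r) = f := by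
  unfold ev
  have : (fun i : Fin r => (Xs R r).getD i 0) = X := by
    funext i
    simp [Xs, List.getD]
  rw [this, aeval_X_left, AlgHom.id_apply]

theorem ev_add (f g : MvPolynomial (Fin r) R) (l : List A) : ev (f + g) l = ev f l + ev g l := by
  unfold ev; rw [map_add]

theorem ev_mul (f g : MvPolynomial (Fin r) R) (l : List A) : ev (f * g) l = ev f l * ev g l := by
  unfold ev; rw [map_mul]

theorem ev_smul (c : R) (f : MvPolynomial (Fin r) R) (l : List A) : ev (c • f) l = c • ev f l := by
  unfold ev; rw [map_smul]

theorem ev_zero (l : List A) : ev (0 : MvPolynomial (Fin r) R) l = 0 := by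
  unfold ev; rw [map_zero]

/-- every list of length `r` is the image of the list of the variables -/
theorem map_Xs (l : List A) (hl : l.length = r) :
    (Xs R r).map (aeval (fun i : Fin r => l.getD i 0)) = l := by
  unfold Xs
  rw [List.map_map]
  apply List.ext_getElem
  · simp [hl]
  · intro i h1 h2
    simp at h1
    simp [List.getD, h2]

theorem ev_getD (f : MvPolynomial (Fin r) R) (l : List A) :
    ev f l = aeval (fun i : Fin r => l.getD i 0) f := rfl

/-- the equations for the variables give the equations for all elements of all algebras -/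
theorem IsLS.lie {f : MvPolynomial (Fin r) R} (h : IsLS f) : Lie r (ev f : List A → A) := by
  intro u v hu hv huv
  have hl : (u ++ v).length = r := by simp [huv]
  set φ : MvPolynomial (Fin r) R →ₐ[R] A := aeval (fun i : Fin r => (u ++ v).getD i 0) with hφ
  have e := map_Xs (R := R) (u ++ v) hl
  have hu0 : 0 < u.length := List.length_pos_iff.2 hu
  have hv0 : 0 < v.length := List.length_pos_iff.2 hv
  have e1 : ((Xs R r).take u.length).map φ = u := by
    rw [List.map_take, e, List.take_left]
  have e2 : ((Xs R r).drop u.length).map φ = v := by
    rw [List.map_drop, e, List.drop_left]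
  rw [← e1, ← e2, sh_map]
  have h1 := (h u.length hu0 (by omega)).1
  have h2 := congrArg φ.toAddMonoidHom h1
  rw [sh_hom, map_zero] at h2
  refine Eq.trans ?_ h2
  congr 1
  funext w
  exact ev_map f φ w

theorem IsLS.lie' {f : MvPolynomial (Fin r) R} (h : IsLS f) :
    Lie r (fun w : List A => ev f (ps 0 w)) := by
  intro u v hu hv huv
  have hl : (u ++ v).length = r := by simp [huv]
  set φ : MvPolynomial (Fin r) R →ₐ[R] A := aeval (fun i : Fin r => (u ++ v).getD i 0) with hφ
  have e := map_Xs (R := R) (u ++ v) hl
  have hu0 : 0 < u.length := List.length_pos_iff.2 hu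
  have hv0 : 0 < v.length := List.length_pos_iff.2 hv
  have e1 : ((Xs R r).take u.length).map φ = u := by
    rw [List.map_take, e, List.take_left]
  have e2 : ((Xs R r).drop u.length).map φ = v := by
    rw [List.map_drop, e, List.drop_left]
  rw [← e1, ← e2, sh_map]
  have h1 := (h u.length hu0 (by omega)).2
  have h2 := congrArg φ.toAddMonoidHom h1
  rw [sh_hom, map_zero] at h2
  refine Eq.trans ?_ h2
  congr 1
  funext w
  show ev f (ps 0 (w.map φ)) = φ (ev f (ps 0 w))
  rw [← ev_map, ← ps_map φ (map_add φ), map_zero]

end evs

/-- The space `D_r` of linearized double shuffle polynomials in degree `n`. -/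
noncomputable def D (R : Type) [CommRing R] (r n : ℕ) : Submodule R (MvPolynomial (Fin r) R) where
  carrier := {f | f.IsHomogeneous n ∧ IsLS f}
  add_mem' := by
    rintro f g ⟨hf, hf'⟩ ⟨hg, hg'⟩
    refine ⟨hf.add hg, fun i h0 hi => ⟨?_, ?_⟩⟩
    · have e : (ev (f + g) : List (MvPolynomial (Fin r) R) → _) = fun w => ev f w + ev g w := by
        funext w; exact ev_add f g w
      rw [e, sh_add, (hf' i h0 hi).1, (hg' i h0 hi).1, add_zero]
    · have e : (fun w : List (MvPolynomial (Fin r) R) => ev (f + g) (ps 0 w)) =
          fun w => ev f (ps 0 w) + ev g (ps 0 w) := by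
        funext w; exact ev_add f g _
      rw [e, sh_add, (hf' i h0 hi).2, (hg' i h0 hi).2, add_zero]
  zero_mem' := by
    refine ⟨isHomogeneous_zero _ _ _, fun i _ _ => ⟨?_, ?_⟩⟩
    · have e : (ev (0 : MvPolynomial (Fin r) R) : List (MvPolynomial (Fin r) R) → _) = fun _ => 0 := by
        funext w; exact ev_zero w
      rw [e, sh_zero]
    · have e : (fun w : List (MvPolynomial (Fin r) R) => ev (0 : MvPolynomial (Fin r) R) (ps 0 w)) =
          fun _ => 0 := by
        funext w; exact ev_zero _
      rw [e, sh_zero]
  smul_mem' := by
    rintro c f ⟨hf, hf'⟩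
    refine ⟨?_, fun i h0 hi => ⟨?_, ?_⟩⟩
    · exact (homogeneousSubmodule (Fin r) R n).smul_mem c hf
    · have e : (ev (c • f) : List (MvPolynomial (Fin r) R) → _) = fun w => c • ev f w := by
        funext w; exact ev_smul c f w
      rw [e]
      refine (sh_hom (DistribSMul.toAddMonoidHom (MvPolynomial (Fin r) R) c) _ _ (ev f)).symm.trans ?_
      rw [(hf' i h0 hi).1]
      simp
    · have e : (fun w : List (MvPolynomial (Fin r) R) => ev (c • f) (ps 0 w)) =
          fun w => c • ev f (ps 0 w) := by
        funext w; exact ev_smul c f _
      rw [e]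
      refine (sh_hom (DistribSMul.toAddMonoidHom (MvPolynomial (Fin r) R) c) _ _
        (fun w => ev f (ps 0 w))).symm.trans ?_
      rw [(hf' i h0 hi).2]
      simp

theorem mem_D {R : Type} [CommRing R] {r n : ℕ} {f : MvPolynomial (Fin r) R} :
    f ∈ D R r n ↔ f.IsHomogeneous n ∧ IsLS f := Iff.rfl

end Run7.h102.LS
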