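import Pool.Agent.Run7.h102.LS.Stm
import Pool.Agent.H777R4.DM.DMN
import Pool.Agent.H466R3.DM_Prim0
import Pool.Agent.H237R3.DM.Delta
import Pool.Agent.H777R4.DM.R0

/-! # The depth graded parts of `dm` embed into the spaces `D ℚ r n` -/

set_option autoImplicit false

namespace Run7.h102.LS

open MvPolynomial Finset
open Pool.Agent.H777R4.DM (LieX co wordX AY Prim A IsDM LenHom Fp co_Fp co_Fp_ne run dl dp dp_dl prim_all
  strip wordX_strip wordX_length co_add co_smul co_zero al_ext)

attribute [local instance 100] LieRing.ofAssociativeRing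

theorem Wt_map {S T : Type} [CommRing S] [CommRing T] (φ : S →+* T) (N : ℕ) : ∀ (l : List S)
    (β : List (Fin 2) → S), φ (Wt N l β) = Wt N (l.map φ) (fun w => φ (β w)) := by
  induction N with
  | zero =>
    intro l β
    cases l <;> simp [Wt]
  | succ N ih =>
    intro l β
    cases l with
    | nil => simp [Wt]
    | cons a l =>
      simp only [List.map_cons, Wt, map_add, map_mul]
      rw [ih, ih]
      rfl

theorem Wt_add {S : Type} [CommRing S] (N : ℕ) : ∀ (l : List S) (β γ : List (Fin 2) → S),
    Wt N l (fun w => β w + γ w) = Wt N l β + Wt N l γ := by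
  induction N with
  | zero => intro l β γ; cases l <;> simp [Wt]
  | succ N ih =>
    intro l β γ
    cases l with
    | nil => simp [Wt]
    | cons a l =>
      simp only [Wt]
      rw [ih l (fun w => β (1 :: w)) (fun w => γ (1 :: w)),
        ih (a :: l) (fun w => β (0 :: w)) (fun w => γ (0 :: w))]
      ring

theorem Wt_mul {S : Type} [CommRing S] (N : ℕ) (c : S) : ∀ (l : List S) (β : List (Fin 2) → S),
    Wt N l (fun w => c * β w) = c * Wt N l β := by
  induction N with
  | zero => intro l β; cases l <;> simp [Wt]
  | succ N ih =>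
    intro l β
    cases l with
    | nil => simp [Wt]
    | cons a l =>
      simp only [Wt]
      rw [ih l (fun w => β (1 :: w)), ih (a :: l) (fun w => β (0 :: w))]
      ring

/-- the polynomial of the part of depth `r` and weight `N` -/
noncomputable def pol (r N : ℕ) : A →ₗ[ℚ] MvPolynomial (Fin r) ℚ where
  toFun ψ := Wt N (Xs ℚ r).reverse (fun w => C (co ψ w))
  map_add' P Q := by
    rw [← Wt_add]
    congr 1
    funext w
    rw [co_add, C_add]
  map_smul' c P := by
    rw [RingHom.id_apply, smul_eq_C_mul, ← Wt_mul]
    congr 1
    funext w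
    rw [co_smul, C_mul]

theorem pol_apply (r N : ℕ) (ψ : A) : pol r N ψ = Wt N (Xs ℚ r).reverse (fun w => C (co ψ w)) := rfl

theorem ev_pol {T : Type} [CommRing T] [Algebra ℚ T] {r N : ℕ} (ψ : A) (l : List T)
    (hl : l.length = r) : ev (pol r N ψ) l = Wt N l.reverse (fun w => algebraMap ℚ T (co ψ w)) := by
  have e := map_Xs (R := ℚ) l hl
  unfold ev
  rw [pol_apply]
  have h := Wt_map (aeval (fun i : Fin r => l.getD i 0) : MvPolynomial (Fin r) ℚ →ₐ[ℚ] T).toRingHom N
    (Xs ℚ r).reverse (fun w => C (co ψ w))
  refine h.trans ?_
  rw [List.map_reverse]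
  have e' : List.map (⇑(aeval (fun i : Fin r => l.getD i 0) :
      MvPolynomial (Fin r) ℚ →ₐ[ℚ] T).toRingHom) (Xs ℚ r) = l := e
  rw [e']
  congr 1
  funext w
  exact (aeval (fun i : Fin r => l.getD i 0) : MvPolynomial (Fin r) ℚ →ₐ[ℚ] T).commutes _

theorem ps_append' {T : Type} [CommRing T] (l l' : List T) : ∀ s : T,
    ps s (l ++ l') = ps s l ++ ps (s + l.sum) l' := by
  induction l with
  | nil => intro s; simp [ps]
  | cons a l ih =>
    intro s
    simp only [List.cons_append, ps, List.sum_cons]
    rw [ih, add_assoc]

theorem ps_ss {T : Type} [CommRing T] (l : List T) : (ps 0 l).reverse = ss l.reverse := by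
  induction l using List.reverseRecOn with
  | nil => rfl
  | append_singleton l a ih =>
    rw [ps_append', List.reverse_append, List.reverse_append, ih]
    simp only [ps, List.reverse_cons, List.reverse_nil, List.nil_append, List.cons_append, ss, zero_add]
    rw [List.sum_reverse, add_comm]

theorem Wt_hom {r : ℕ} (N : ℕ) : ∀ (l : List (MvPolynomial (Fin r) ℚ)) (β : List (Fin 2) → ℚ),
    (∀ a ∈ l, a.IsHomogeneous 1) →
      (Wt N l (fun w => C (β w))).IsHomogeneous (N - l.length) ∧
        (N < l.length → Wt N l (fun w => C (β w)) = 0) := by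
  induction N with
  | zero =>
    intro l β h
    cases l with
    | nil =>
      refine ⟨?_, fun h => by simp at h⟩
      simpa [Wt] using isHomogeneous_C (Fin r) (β [])
    | cons a l =>
      refine ⟨?_, fun _ => by simp [Wt]⟩
      simpa [Wt] using isHomogeneous_zero (Fin r) ℚ 0
  | succ N ih =>
    intro l β h
    cases l with
    | nil =>
      refine ⟨?_, fun h => by simp at h⟩
      simpa [Wt] using isHomogeneous_zero (Fin r) ℚ (N + 1)
    | cons a l =>
      have h1 := ih l (fun w => β (1 :: w)) (fun b hb => h b (List.mem_cons_of_mem _ hb))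
      have h2 := ih (a :: l) (fun w => β (0 :: w)) h
      constructor
      · rw [Wt]
        refine IsHomogeneous.add ?_ ?_
        · have e : N + 1 - (a :: l).length = N - l.length := by simp
          rw [e]; exact h1.1
        · by_cases hN : N < (a :: l).length
          · rw [h2.2 hN, mul_zero]
            exact isHomogeneous_zero _ _ _
          · have e : N + 1 - (a :: l).length = 1 + (N - (a :: l).length) := by omega
            rw [e]
            exact (h a (by simp)).mul h2.1
      · intro hN
        rw [Wt, h1.2 (by simp at hN; omega), h2.2 (by omega), mul_zero, add_zero]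

theorem Mv_inj (r : ℕ) : ∀ (n : ℕ) (c : List ℕ → ℚ), (∀ l : List ℚ, l.length = r → Mv n l c = 0) →
    ∀ k : List ℕ, k.length = r → k.sum = n → c k = 0 := by
  induction r with
  | zero =>
    intro n c h k hk hs
    have h0 := List.length_eq_zero_iff.1 hk
    subst h0
    have := h [] rfl
    rw [Mv, if_pos (by simpa using hs.symm)] at this
    exact this
  | succ r ih =>
    intro n c h k hk hs
    cases k with
    | nil => simp at hk
    | cons a k =>
      refine ih (n - a) (fun w => c (a :: w)) ?_ k (by simpa using hk) (by simp at hs; omega)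
      intro l hl
      -- univariate polynomial
      set p : Polynomial ℚ := ∑ j ∈ range (n + 1),
        Polynomial.C (Mv (n - j) l (fun w => c (j :: w))) * Polynomial.X ^ j with hp
      have hp0 : p = 0 := by
        apply Polynomial.funext
        intro x
        rw [hp, Polynomial.eval_finset_sum, Polynomial.eval_zero, ← h (x :: l) (by simpa using hl), Mv]
        refine Finset.sum_congr rfl fun j _ => ?_
        rw [Polynomial.eval_mul, Polynomial.eval_C, Polynomial.eval_pow, Polynomial.eval_X, mul_comm]
      have h1 := congrArg (fun q => Polynomial.coeff q a) hp0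
      simp only [Polynomial.coeff_zero] at h1
      rw [hp, Polynomial.finset_sum_coeff] at h1
      simp only [Polynomial.coeff_C_mul, Polynomial.coeff_X_pow] at h1
      rw [Finset.sum_eq_single a] at h1
      · simpa using h1
      · intro b _ hb
        rw [if_neg (Ne.symm hb), mul_zero]
      · intro ha
        exact absurd (mem_range.2 (by simp at hs; omega)) ha

theorem pol_mem (hREV : S_REV) (hLSH : S_LSH) (hPRS : S_PRS) (hPML : S_PML) (hGEN : S_GEN) (hWM : S_WM)
    {r N : ℕ} (hN : r ≤ N) {ψ : A} (h1 : ψ ∈ LieX) (h2 : Prim (Fp r ψ 0)) :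
    pol r N ψ ∈ D ℚ r (N - r) := by
  refine ⟨?_, fun i h0 hi => ?_⟩
  · have := (Wt_hom N (Xs ℚ r).reverse (co ψ) ?_).1
    · rw [List.length_reverse, Xs_length] at this
      exact this
    · intro a ha
      rw [List.mem_reverse] at ha
      obtain ⟨j, _, rfl⟩ := List.mem_map.1 ha
      exact isHomogeneous_X ℚ j
  · set u := (Xs ℚ r).take i with hu
    set v := (Xs ℚ r).drop i with hv
    have hul : u.length = i := by rw [hu, List.length_take, Xs_length]; omega
    have hvl : v.length = r - i := by rw [hv, List.length_drop, Xs_length]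
    have hun : u.reverse ≠ [] := by
      intro h
      have := congrArg List.length h
      rw [List.length_reverse, hul] at this
      simp at this
      omega
    have hvn : v.reverse ≠ [] := by
      intro h
      have := congrArg List.length h
      rw [List.length_reverse, hvl] at this
      simp at this
      omega
    have hlen : u.reverse.length + v.reverse.length = r := by
      rw [List.length_reverse, List.length_reverse, hul, hvl]; omega
    have hperm : ∀ w : List (MvPolynomial (Fin r) ℚ), w.Perm (u ++ v) → w.length = r := by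
      intro w hw
      rw [hw.length_eq, List.length_append, hul, hvl]; omega
    constructor
    · have e1 : sh u v (ev (pol r N ψ)) = sh u v (fun w => Wt N w.reverse (fun w => C (co ψ w))) :=
        sh_congr _ u v rfl _ _ fun w hw => ev_pol ψ w (hperm w hw)
      rw [e1, hREV _ _ _ u v (fun w => Wt N w (fun w => C (co ψ w)))]
      have e2 : sh u.reverse v.reverse (fun w => Wt N w (fun w => (C (co ψ w) : MvPolynomial (Fin r) ℚ))) =
          sh u.reverse v.reverse (fun w => Mv (N - r) w (fun k => (C (co ψ (wordX k)) :
            MvPolynomial (Fin r) ℚ))) := by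
        refine sh_congr _ _ _ rfl _ _ fun w hw => ?_
        have hl : w.length = r := by rw [hw.length_eq, List.length_append, hlen]
        rw [hWM _ _ N w _ (by omega), hl]
      rw [e2]
      refine hPML _ _ (N - r) r _ ?_ u.reverse v.reverse hun hvn hlen
      intro k k' hk hk' hkk
      have h3 := hPRS _ h2 k k' hk hk'
      have h4 : sh k k' (fun w => co ψ (wordX w)) = 0 := by
        rw [← h3]
        refine sh_congr _ _ _ rfl _ _ fun w hw => ?_
        rw [co_Fp, if_pos (by rw [hw.length_eq, List.length_append, hkk])]
        simp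
      have h5 := sh_hom (C : ℚ →+* MvPolynomial (Fin r) ℚ).toAddMonoidHom k k' (fun w => co ψ (wordX w))
      rw [h4, map_zero] at h5
      exact h5.symm
    · have e1 : sh u v (fun w => ev (pol r N ψ) (ps 0 w)) =
          sh u v (fun w => Wt N (ss w.reverse) (fun w => C (co ψ w))) := by
        refine sh_congr _ u v rfl _ _ fun w hw => ?_
        rw [ev_pol ψ _ (by rw [ps_length]; exact hperm w hw), ps_ss]
        rfl
      rw [e1, hREV _ _ _ u v (fun w => Wt N (ss w) (fun w => C (co ψ w)))]
      refine hGEN _ _ N r _ ?_ u.reverse v.reverse hun hvn hlen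
      intro p q hp hq _
      have h3 := hLSH ψ h1 p q hp hq
      have h5 := sh_hom (C : ℚ →+* MvPolynomial (Fin r) ℚ).toAddMonoidHom p q (co ψ)
      rw [h3, map_zero] at h5
      exact h5.symm

theorem pol_ker (hWM : S_WM) {r N : ℕ} (hN : r ≤ N) {ψ : A} (hd : IsDM ψ) (hh : LenHom ψ N)
    (h0 : pol r N ψ = 0) : ∀ u, u.count 1 = r → co ψ u = 0 := by
  have h1 : ∀ k : List ℕ, k.length = r → co ψ (wordX k) = 0 := by
    intro k hk
    by_cases hs : k.sum = N - r
    · refine Mv_inj r (N - r) (fun k => co ψ (wordX k)) ?_ k hk hs
      intro l hl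
      have h2 := ev_pol (N := N) ψ l.reverse (by simpa using hl)
      rw [h0, ev_zero, List.reverse_reverse, hWM _ _ N l _ (by omega), hl] at h2
      exact h2.symm
    · by_contra hne
      have := hh _ hne
      rw [wordX_length] at this
      omega
  have hF : ∀ j, Fp r ψ j = 0 := by
    intro j
    induction j with
    | zero =>
      apply al_ext
      intro v
      rw [co_Fp, co_zero]
      split_ifs with h
      · simpa using h1 v h
      · rfl
    | succ j ih =>
      have hR : ((j : ℚ) + 1) • Fp r ψ (j + 1) = - dl (Fp r ψ j) := by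
        have := congrArg (dp r) (Pool.Agent.H777R4.DM.R0.taskR0 ψ hd.mem hd.c0 j)
        rw [map_smul, map_neg, dp_dl] at this
        exact this
      rw [ih, map_zero, neg_zero] at hR
      rcases smul_eq_zero.1 hR with h | h
      · exact absurd h (by positivity)
      · exact h
  intro u hu
  have e := wordX_strip u
  have hl : (strip u).1.length = r := by
    rw [← hu, ← e]
    have hc : ∀ v : List ℕ, (wordX v).count 1 = v.length := by
      intro v
      induction v with
      | nil => rfl
      | cons a v ih => simp [wordX, List.count_append, List.count_replicate, ih]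
    simp [List.count_append, List.count_replicate, hc]
    rw [← e]
    simp [List.count_append, List.count_replicate, hc, Pool.Agent.H777R4.DM.strip_wordX]
  have h2 := co_Fp r ψ (strip u).2 (strip u).1
  rw [hF, co_zero, if_pos hl, e] at h2
  exact h2.symm

instance finD (R : Type) [Field R] (r n : ℕ) : Module.Finite R (D R r n) := by
  haveI : Module.Finite R (homogeneousSubmodule (Fin r) R n) :=
    Module.Finite.iff_fg.2 (homogeneousSubmodule_fg (Fin r) R n)
  exact Submodule.finiteDimensional_of_le (S₂ := homogeneousSubmodule (Fin r) R n) fun f hf => hf.1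

theorem dm_main (hREV : S_REV) (hLSH : S_LSH) (hPRS : S_PRS) (hPML : S_PML) (hGEN : S_GEN)
    (hWM : S_WM) {m r N : ℕ} (hr : 1 ≤ r) (ψ : Fin m → A) (hd : ∀ i, IsDM (ψ i))
    (hh : ∀ i, LenHom (ψ i) N) (hc : ∀ i u, co (ψ i) u ≠ 0 → r ≤ u.count 1)
    (hi : ∀ c : Fin m → ℚ, (∀ u, u.count 1 = r → co (∑ i, c i • ψ i) u = 0) → c = 0) :
    m ≤ Module.finrank ℚ (D ℚ r (N - r)) := by
  have co_sum' : ∀ (c : Fin m → ℚ) (u : List (Fin 2)), co (∑ i, c i • ψ i) u = ∑ i, c i * co (ψ i) u := by
    intro c u
    have : ∀ s : Finset (Fin m), co (∑ i ∈ s, c i • ψ i) u = ∑ i ∈ s, c i * co (ψ i) u := by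
      intro s
      classical
      induction s using Finset.induction_on with
      | empty => simp [co_zero]
      | insert a s ha ih => rw [Finset.sum_insert ha, Finset.sum_insert ha, co_add, co_smul, ih]
    exact this univ
  by_cases hN : r ≤ N
  · have hmem : ∀ i, pol r N (ψ i) ∈ D ℚ r (N - r) := fun i =>
      pol_mem hREV hLSH hPRS hPML hGEN hWM hN (hd i).mem
        (prim_all Pool.Agent.H466R3.DMPrim0.prim0 Pool.Agent.H237R3.DM.taskDelta
          Pool.Agent.H777R4.DM.R0.taskR0 (hd i) hr (hc i) 0)
    have hli : LinearIndependent ℚ (fun i => (⟨pol r N (ψ i), hmem i⟩ : D ℚ r (N - r))) := by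
      rw [Fintype.linearIndependent_iff]
      intro c h
      have h1 : pol r N (∑ i, c i • ψ i) = 0 := by
        rw [map_sum]
        simp only [map_smul]
        have := congrArg (Submodule.subtype _) h
        rw [map_sum, map_zero] at this
        simpa using this
      have hd' : IsDM (∑ i, c i • ψ i) := by
        apply Pool.Agent.H777R4.DM.isDM_sum
        intro i _
        exact Pool.Agent.H777R4.DM.isDM_smul (hd i) _
      have hh' : LenHom (∑ i, c i • ψ i) N := by
        intro u hu
        rw [co_sum'] at hu
        obtain ⟨i, _, hi⟩ := Finset.exists_ne_zero_of_sum_ne_zero hu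
        exact hh i u (right_ne_zero_of_mul hi)
      have := hi c (pol_ker hWM hN hd' hh' h1)
      intro i
      rw [this]
      rfl
    have := hli.fintype_card_le_finrank
    simpa using this
  · have hz : ∀ i u, co (ψ i) u = 0 := by
      intro i u
      by_contra hne
      have h1 := hh i u hne
      have h2 := hc i u hne
      have h3 : u.count 1 ≤ u.length := List.count_le_length
      omega
    have := hi (fun _ => 1) (fun u _ => by rw [co_sum']; simp [hz])
    rcases Nat.eq_zero_or_pos m with hm | hm
    · omega
    · exact absurd (congrFun this ⟨0, hm⟩) one_ne_zero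

end Run7.h102.LS
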