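import Pool.Agent.Run7.h102.LS.Nil
import Pool.Agent.Run7.h102.LS.Dm
import Pool.Agent.Run7.h803.LS.DIV
import Pool.Agent.Run7.h67.LS.FIL
import Pool.Agent.Run7.h819.LS.GEN
import Pool.Agent.Run7.h781.LS.LAM
import Pool.Agent.Run7.h431.LS.LSH
import Pool.Agent.Run7.h646.LS.RED
import Pool.Agent.Run7.h24.LS.ASY
import Pool.Agent.Run7.h24.LS.CNT
import Pool.Agent.Run7.h24.LS.DIM
import Pool.Agent.Run7.h24.LS.WM
import Pool.Agent.Run7.h24.LS.CARD
import Pool.Agent.Run7.h921.LS.PML
import Pool.Agent.Run7.h921.LS.REV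

/-! # The upper bounds -/

set_option autoImplicit false

namespace Run7.h102.LS

open Pool.Agent.H777R4.DM (co A IsDM LenHom)

theorem ls_count (r n : ℕ) (hr : 3 ≤ r) : Module.finrank ℚ (D ℚ r n) ≤ B r (fam r).card n :=
  (Run7.h646.LS.t_RED r n).trans (Run7.h24.LS.t_CNT Run7.h67.LS.t_FIL t_NIL Run7.h803.LS.t_DIV
    Run7.h781.LS.t_LAM t_ANTI Run7.h24.LS.t_DIM r n hr)

theorem arith (r n : ℕ) (hr : 4 ≤ r) (b : ℕ) (h : b ≤ B r (fam r).card n) :
    (r + 2).factorial * b ≤ 2 * (n + r + r ^ 2) ^ (r - 1) := by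
  have hc := Run7.h24.LS.t_CARD r hr
  obtain ⟨c, hc2⟩ : ∃ c, c = (r + 1) * (r + 2) / 2 := ⟨_, rfl⟩
  have hev : 2 ∣ (r + 1) * (r + 2) := (Nat.even_mul_succ_self (r + 1)).two_dvd
  have hcc : 2 * c = (r + 1) * (r + 2) := by rw [hc2]; exact Nat.mul_div_cancel' hev
  rw [hc, ← hc2] at h
  have h1 := Run7.h24.LS.t_ASY r c n (by omega) (by nlinarith)
  have h2 : (r + 2).factorial = 2 * (c * r.factorial) := by
    rw [Nat.factorial_succ, Nat.factorial_succ, ← mul_assoc, ← mul_assoc, hcc]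
    ring
  have h3 : n + c + 2 * r - 3 ≤ n + r + r ^ 2 := by
    have : 2 * (c + r) ≤ 2 * r ^ 2 + 6 := by nlinarith
    omega
  calc (r + 2).factorial * b = 2 * (c * r.factorial * b) := by rw [h2]; ring
    _ ≤ 2 * (c * r.factorial * B r c n) := by gcongr
    _ ≤ 2 * (n + c + 2 * r - 3) ^ (r - 1) := by gcongr
    _ ≤ 2 * (n + r + r ^ 2) ^ (r - 1) := by gcongr

/-- the bound for the linearized double shuffle space in every depth -/
theorem ls_bound (r n : ℕ) (hr : 4 ≤ r) :
    (r + 2).factorial * Module.finrank ℚ (D ℚ r n) ≤ 2 * (n + r + r ^ 2) ^ (r - 1) :=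
  arith r n hr _ (ls_count r n (by omega))

/-- the bound for the depth graded pieces of the double shuffle Lie algebra -/
theorem dm_bound {m r N : ℕ} (hr : 4 ≤ r) (ψ : Fin m → A) (hd : ∀ i, IsDM (ψ i))
    (hh : ∀ i, LenHom (ψ i) N) (hc : ∀ i u, co (ψ i) u ≠ 0 → r ≤ u.count 1)
    (hi : ∀ c : Fin m → ℚ, (∀ u, u.count 1 = r → co (∑ i, c i • ψ i) u = 0) → c = 0) :
    (r + 2).factorial * m ≤ 2 * (N + r ^ 2) ^ (r - 1) := by
  have h1 := dm_main Run7.h921.LS.t_REV Run7.h431.LS.t_LSH Run7.h431.LS.t_PRS Run7.h921.LS.t_PML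
    Run7.h819.LS.t_GEN Run7.h24.LS.t_WM (by omega) ψ hd hh hc hi
  by_cases hN : r ≤ N
  · have h2 := arith r (N - r) hr m (h1.trans (ls_count r (N - r) (by omega)))
    rwa [Nat.sub_add_cancel hN] at h2
  · have hz : ∀ i u, co (ψ i) u = 0 := by
      intro i u
      by_contra hne
      have h1 := hh i u hne
      have h2 := hc i u hne
      have h3 : u.count 1 ≤ u.length := List.count_le_length
      omega
    rcases Nat.eq_zero_or_pos m with hm | hm
    · subst hm; simp
    · have h3 := hi (fun _ => 1) (fun u _ => by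
        have : ∑ i, (fun _ => (1 : ℚ)) i • ψ i = 0 := by
          apply Pool.Agent.H777R4.DM.al_ext
          intro l
          rw [Pool.Agent.H777R4.DM.co_zero]
          have : ∀ s : Finset (Fin m), co (∑ i ∈ s, (1 : ℚ) • ψ i) l = 0 := by
            intro s
            classical
            induction s using Finset.induction_on with
            | empty => simp [Pool.Agent.H777R4.DM.co_zero]
            | insert a s ha ih =>
              rw [Finset.sum_insert ha, Pool.Agent.H777R4.DM.co_add, Pool.Agent.H777R4.DM.co_smul, ih, hz]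
              ring
          exact this Finset.univ
        rw [this, Pool.Agent.H777R4.DM.co_zero])
      exact absurd (congrFun h3 ⟨0, hm⟩) one_ne_zero

end Run7.h102.LS
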