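import Pool.Agent.Run7.h102.LS.Anti

/-! # Divisibility by all forms of the family -/

set_option autoImplicit false
set_option linter.unusedSectionVars false

namespace Run7.h102.LS

open MvPolynomial

section alg
variable {A : Type} [CommRing A] [Algebra K A]

theorem two_zero (a : A) : a + a = 0 := by
  have h : (algebraMap K A) (1 + 1) * a = 0 := by
    have : (1 + 1 : K) = 0 := by decide
    rw [this, map_zero, zero_mul]
  rw [map_add, map_one, add_mul, one_mul] at h
  exact h

theorem ps_append (l l' : List A) : ∀ s : A, ps s (l ++ l') = ps s l ++ ps (s + l.sum) l' := by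
  induction l with
  | nil => intro s; simp [ps]
  | cons a l ih =>
    intro s
    simp only [List.cons_append, ps, List.sum_cons]
    rw [ih, add_assoc]

/-- differences -/
def df : A → List A → List A
  | _, [] => []
  | s, t :: l => (s + t) :: df t l

theorem df_length (l : List A) : ∀ s : A, (df s l).length = l.length := by
  induction l with
  | nil => intro s; rfl
  | cons a l ih => intro s; simp [df, ih]

theorem ps_df (l : List A) : ∀ s : A, ps s (df s l) = l := by
  induction l with
  | nil => intro s; rfl
  | cons t l ih =>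
    intro s
    have e : s + (s + t) = t := by rw [← add_assoc, two_zero, zero_add]
    rw [df, ps, e, ih]

theorem df_append (l : List A) (a b : A) (q : List A) : ∀ s : A,
    df s (l ++ a :: b :: q) = df s (l ++ [a]) ++ (a + b) :: df b q := by
  induction l with
  | nil => intro s; simp [df]
  | cons t l ih => intro s; simp only [List.cons_append, df]; rw [ih]

theorem ps_rev (l : List A) (s : A) : (s :: ps s l.reverse).reverse = (s + l.sum) :: ps (s + l.sum) l := by
  induction l generalizing s with
  | nil => simp [ps]
  | cons a l ih =>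
    have e1 : s :: ps s (a :: l).reverse = (s :: ps s l.reverse) ++ [s + l.sum + a] := by
      rw [List.reverse_cons, ps_append]
      simp [ps, List.sum_reverse]
    rw [e1, List.reverse_append, ih]
    have e2 : s + (a :: l).sum = s + l.sum + a := by
      rw [List.sum_cons]; abel
    have e3 : s + l.sum + a + a = s + l.sum := by rw [add_assoc, two_zero, add_zero]
    rw [e2]
    simp only [List.reverse_cons, List.reverse_nil, List.nil_append, List.cons_append, ps]
    rw [e3]

variable {r : ℕ} {f : MvPolynomial (Fin r) K}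

theorem ev_shp (f : MvPolynomial (Fin r) K) (w : List A) (hw : w.length = r) :
    ev (shp f) w = ev f (ps 0 w) := by
  have e := map_Xs (R := K) w hw
  have e1 : ev (shp f) w = (aeval (fun i : Fin r => w.getD i 0)) (ev f (ps 0 (Xs K r))) := rfl
  rw [e1, ← ev_map, ← ps_map _ (map_add _), map_zero, e]

theorem ev_sum (w : List A) (hw : w.length = r) : ev (∑ i, X i : MvPolynomial (Fin r) K) w = w.sum := by
  unfold ev
  rw [map_sum]
  simp only [aeval_X]
  subst hw
  rw [← List.sum_ofFn]
  congr 1
  apply List.ext_getElem
  · simp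
  · intro i h1 h2
    simp [List.getD, h2]

variable (hf : IsLS f)
include hf

/-- rotation of the edges -/
theorem rot (x : A) (l : List A) (hl : l.length + 1 = r) :
    ev f (ps 0 (x :: l)) = ev f (ps 0 (l ++ [x + l.sum])) := by
  have h2 : ∀ a : A, a + a = 0 := two_zero
  have hT := hf.lie' (A := A)
  have hS := hf.lie (A := A)
  set s : A := x + l.sum with hs
  have e1 : ev f (ps 0 (l ++ [s])) = ev f (ps 0 (l ++ [s]).reverse) :=
    rev h2 hT (l ++ [s]) (by simpa using hl)
  rw [e1, List.reverse_append, List.reverse_cons, List.reverse_nil, List.nil_append, List.singleton_append]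
  have e3 : ps 0 (s :: l.reverse) = s :: ps s l.reverse := by rw [ps, zero_add]
  have e4 : ps 0 (x :: l) = x :: ps x l := by rw [ps, zero_add]
  have e2 : ev f (s :: ps s l.reverse) = ev f (s :: ps s l.reverse).reverse :=
    rev h2 hS _ (by simp [ps_length]; omega)
  rw [e3, e4, e2, ps_rev, hs, add_assoc, h2, add_zero]

variable {k : ℕ} (hk : (∑ i, X i : MvPolynomial (Fin r) K) ^ k ∣ shp f)
include hk

theorem nsum (l : List A) (hl : l.length = r) (h : l.sum ^ k = 0) : ev f (ps 0 l) = 0 := by
  rw [← ev_shp f l hl]
  obtain ⟨G, hG⟩ := hk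
  rw [hG, ev_mul]
  have : ev ((∑ i, X i : MvPolynomial (Fin r) K) ^ k) l = (ev (∑ i, X i : MvPolynomial (Fin r) K) l) ^ k := by
    unfold ev; rw [map_pow]
  rw [this, ev_sum l hl, h, zero_mul]

theorem nE0 (x : A) (w : List A) (hw : w.length + 1 = r) (hx : x ^ k = 0) : ev f (ps 0 (x :: w)) = 0 := by
  rw [rot hf x w hw]
  refine nsum hf hk _ (by simpa using hw) ?_
  have : (w ++ [x + w.sum]).sum = x := by
    rw [List.sum_append, List.sum_singleton, add_comm x, ← add_assoc, two_zero, zero_add]
  rw [this, hx]

theorem nE (x : A) (q v : List A) (hw : q.length + v.length + 1 = r) (hx : x ^ k = 0) :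
    ev f (ps 0 (q ++ x :: v)) = 0 :=
  first two_zero (hf.lie' (A := A)) x (fun w hw => nE0 hf hk x w hw hx) q v hw

theorem nV0 (a b : A) (p q : List A) (hn : p.length + q.length + 2 = r) (h : (a + b) ^ k = 0) :
    ev f (p ++ a :: b :: q) = 0 := by
  have e : p ++ a :: b :: q = ps 0 (df 0 (p ++ a :: b :: q)) := (ps_df _ _).symm
  rw [e, df_append]
  exact nE hf hk _ _ _ (by simp [df_length]; omega) h

theorem nV1 (a : A) (q v : List A) (hn : q.length + v.length + 1 = r) (h : a ^ k = 0) :
    ev f (q ++ a :: v) = 0 := by
  refine first two_zero (hf.lie (A := A)) a (fun w hw => ?_) q v hn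
  have e : a :: w = ps 0 (df 0 (a :: w)) := (ps_df _ _).symm
  rw [e, df]
  exact nE0 hf hk _ _ (by simp [df_length]; omega) (by rw [zero_add]; exact h)

theorem nV (a b : A) (p q t : List A) (hn : p.length + q.length + t.length + 2 = r)
    (h : (a + b) ^ k = 0) : ev f (p ++ a :: (q ++ b :: t)) = 0 :=
  adj two_zero (hf.lie (A := A)) a b (fun p q hn => nV0 hf hk a b p q hn h) p q t hn

theorem nE2 (x y : A) (p q : List A) (hn : p.length + q.length + 2 = r) (h : (x + y) ^ k = 0) :
    ev f (ps 0 (p ++ x :: y :: q)) = 0 := by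
  rcases List.eq_nil_or_concat p with hp | ⟨p', z, hp⟩
  · subst hp
    rw [List.nil_append, ps, ps, zero_add]
    exact nV1 hf hk (x + y) [x] (ps (x + y) q) (by simp [ps_length] at hn ⊢; omega) h
  · subst hp
    rw [List.concat_eq_append, List.append_assoc, ps_append]
    simp only [List.singleton_append, ps, zero_add]
    refine nV hf hk (p'.sum + z) (p'.sum + z + x + y) (ps 0 p') [p'.sum + z + x] _ ?_ ?_
    · simp [ps_length] at hn ⊢; omega
    · have : p'.sum + z + (p'.sum + z + x + y) = x + y := by
        have : p'.sum + z + (p'.sum + z + x + y) = (p'.sum + z + (p'.sum + z)) + (x + y) := by abel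
        rw [this, two_zero, zero_add]
      rw [this, h]

theorem nE3 (x y : A) (p q t : List A) (hn : p.length + q.length + t.length + 2 = r)
    (h : (x + y) ^ k = 0) : ev f (ps 0 (p ++ x :: (q ++ y :: t))) = 0 :=
  adj two_zero (hf.lie' (A := A)) x y (fun p q hn => nE2 hf hk x y p q hn h) p q t hn

theorem nE4 (x : A) (p q : List A) (hr : 2 ≤ r) (hn : p.length + q.length + 1 = r)
    (h : (x + (p ++ x :: q).sum) ^ k = 0) : ev f (ps 0 (p ++ x :: q)) = 0 := by
  cases p with
  | nil =>
    rcases List.eq_nil_or_concat q with hq | ⟨q', z, hq⟩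
    · subst hq
      simp at hn
      omega
    · subst hq
      rw [List.nil_append, List.concat_eq_append] at *
      rw [ps, zero_add, ps_append]
      simp only [ps]
      have := nV hf hk x (x + q'.sum + z) [] (ps x q') [] (by simp [ps_length] at hn ⊢; omega) ?_
      · simpa using this
      · have e : x + (x + q'.sum + z) = x + (x :: (q' ++ [z])).sum := by
          simp [List.sum_append]; abel
        rw [e, h]
  | cons y p =>
    rw [List.cons_append, rot hf y _ (by simp at hn ⊢; omega)]
    have e : p ++ x :: q ++ [y + (p ++ x :: q).sum] = p ++ x :: (q ++ (y + (p ++ x :: q).sum) :: []) := by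
      simp
    rw [e]
    refine nE3 hf hk _ _ p q [] (by simp at hn ⊢; omega) ?_
    rw [List.cons_append, List.sum_cons] at h
    exact h

end alg

theorem dvd_of {r : ℕ} {f : MvPolynomial (Fin r) K} (P : MvPolynomial (Fin r) K)
    (h : ev f (ps 0 ((Xs K r).map (Ideal.Quotient.mkₐ K (Ideal.span {P})))) = 0) : P ∣ shp f := by
  rw [← Ideal.mem_span_singleton, ← Ideal.Quotient.eq_zero_iff_mem]
  have e : Ideal.Quotient.mk (Ideal.span {P}) (shp f) = Ideal.Quotient.mkₐ K (Ideal.span {P}) (shp f) := rfl
  rw [e]
  unfold shp
  rw [← ev_map, ← ps_map _ (map_add _), map_zero]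
  exact h

theorem t_NIL : S_NIL := by
  intro r k f hr hf hk S hS
  set P := lf S ^ k with hP
  refine dvd_of P ?_
  set mk := Ideal.Quotient.mkₐ K (Ideal.span {P}) with hmk
  have hz : (mk (lf S)) ^ k = 0 := by
    rw [← map_pow, ← hP]
    exact Ideal.Quotient.eq_zero_iff_mem.2 (Ideal.mem_span_singleton_self P)
  have hsum : ((Xs K r).map mk).sum = mk (∑ i, X i) := by
    rw [← map_list_sum, ← ev_sum (A := MvPolynomial (Fin r) K) (Xs K r) Xs_length, ev_Xs]
  have hlen : ((Xs K r).map mk).length = r := by rw [List.length_map, Xs_length]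
  rw [fam, Finset.mem_filter] at hS
  rcases hS.2 with h | h | h | h
  · obtain ⟨i, rfl⟩ := Finset.card_eq_one.1 h
    have hi : X i ∈ Xs K r := by simp [Xs]
    obtain ⟨p, q, hpq⟩ := List.append_of_mem hi
    have hl := congrArg List.length hpq
    rw [Xs_length] at hl
    rw [hpq, List.map_append, List.map_cons]
    refine nE hf hk _ _ _ (by simp at hl ⊢; omega) ?_
    rw [lf, Finset.sum_singleton] at hz
    exact hz
  · obtain ⟨i, j, hij, rfl⟩ := Finset.card_eq_two.1 h
    rw [lf, Finset.sum_pair hij] at hz
    have hi : X i ∈ Xs K r := by simp [Xs]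
    have hj : X j ∈ Xs K r := by simp [Xs]
    have hne : (X i : MvPolynomial (Fin r) K) ≠ X j := fun e => hij (X_injective e)
    obtain ⟨p, q, hpq⟩ := List.append_of_mem hi
    have hl := congrArg List.length hpq
    rw [Xs_length] at hl
    rw [hpq, List.mem_append, List.mem_cons] at hj
    rcases hj with hj | hj | hj
    · obtain ⟨a, b, rfl⟩ := List.append_of_mem hj
      rw [hpq]
      simp only [List.map_append, List.map_cons, List.append_assoc, List.cons_append]
      refine nE3 hf hk _ _ _ _ _ (by simp at hl ⊢; omega) ?_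
      rw [add_comm, ← map_add]
      exact hz
    · exact absurd hj.symm hne
    · obtain ⟨a, b, rfl⟩ := List.append_of_mem hj
      rw [hpq]
      simp only [List.map_append, List.map_cons]
      refine nE3 hf hk _ _ _ _ _ (by simp at hl ⊢; omega) ?_
      rw [← map_add]
      exact hz
  · obtain ⟨i, hi⟩ : ∃ i, Sᶜ = {i} := by
      rw [← Finset.card_eq_one, Finset.card_compl, Fintype.card_fin]
      omega
    have hlf : lf S = X i + ∑ j, X j := by
      have e : ∑ j, (X j : MvPolynomial (Fin r) K) = lf S + X i := by
        rw [lf, ← Finset.sum_add_sum_compl S, hi, Finset.sum_singleton]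
      rw [e, add_comm, add_assoc, two_zero, add_zero]
    have hi : X i ∈ Xs K r := by simp [Xs]
    obtain ⟨p, q, hpq⟩ := List.append_of_mem hi
    have hl := congrArg List.length hpq
    rw [Xs_length] at hl
    rw [hlf, map_add, ← hsum, hpq, List.map_append, List.map_cons] at hz
    rw [hpq, List.map_append, List.map_cons]
    exact nE4 hf hk _ _ _ (by omega) (by simp at hl ⊢; omega) hz
  · have hu : S = Finset.univ := by
      rw [← Finset.card_eq_iff_eq_univ, h, Fintype.card_fin]
    subst hu
    refine nsum hf hk _ hlen ?_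
    rw [hsum]
    exact hz

end Run7.h102.LS
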