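import Pool.Agent.Run7.h102.LS.Defs
import Pool.Agent.H777R4.DM.Stmts

/-! # Upper bounds for the double shuffle Lie algebra in every depth: the pieces

Everything is over the field `K = ℤ/2`. `r`: depth, `n`: degree (weight minus depth).
Idea: reduce mod 2; there every solution whose edge form is divisible by `σ^k`, `σ = x₁ + ⋯ + x_r`, is
divisible by the `k`-th powers of ALL forms `x_i, x_i + x_j, σ, σ + x_i`. -/

set_option autoImplicit false

namespace Run7.h102.LS

open MvPolynomial Finset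

abbrev K : Type := ZMod 2

/-- The linear form `∑_{i ∈ S} x_i`. -/
noncomputable def lf {m : ℕ} (S : Finset (Fin m)) : MvPolynomial (Fin m) K := ∑ i ∈ S, X i

/-- The subsets with `1`, `2`, `m - 1` or `m` elements. -/
def fam (m : ℕ) : Finset (Finset (Fin m)) :=
  Finset.univ.filter fun S => S.card = 1 ∨ S.card = 2 ∨ S.card + 1 = m ∨ S.card = m

/-- The closed list `[x₁ + ⋯ + x_m, x₁, …, x_m]` (its sum is `0` in characteristic two). -/
noncomputable def G0 (m : ℕ) : List (MvPolynomial (Fin m) K) := (∑ i, X i) :: Xs K m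

/-- `q(w₂, …, w_(m+1))` is killed by the shuffles of the closed list. -/
def CH {m : ℕ} (q : MvPolynomial (Fin m) K) : Prop :=
  ∀ i, 0 < i → i < m + 1 → sh ((G0 m).take i) ((G0 m).drop i) (fun w => ev q w.tail) = 0

/-- The homogeneous polynomials of degree `n` with `CH`. -/
noncomputable def Lam (m n : ℕ) : Submodule K (MvPolynomial (Fin m) K) where
  carrier := {q | q.IsHomogeneous n ∧ CH q}
  add_mem' := by
    rintro f g ⟨hf, hf'⟩ ⟨hg, hg'⟩
    refine ⟨hf.add hg, fun i h0 hi => ?_⟩
    have e : (fun w : List (MvPolynomial (Fin m) K) => ev (f + g) w.tail) =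
        fun w => ev f w.tail + ev g w.tail := by
      funext w; exact ev_add f g _
    rw [e, sh_add, hf' i h0 hi, hg' i h0 hi, add_zero]
  zero_mem' := by
    refine ⟨isHomogeneous_zero _ _ _, fun i _ _ => ?_⟩
    have e : (fun w : List (MvPolynomial (Fin m) K) => ev (0 : MvPolynomial (Fin m) K) w.tail) =
        fun _ => 0 := by
      funext w; exact ev_zero _
    rw [e, sh_zero]
  smul_mem' := by
    rintro c f ⟨hf, hf'⟩
    refine ⟨(homogeneousSubmodule (Fin m) K n).smul_mem c hf, fun i h0 hi => ?_⟩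
    have e : (fun w : List (MvPolynomial (Fin m) K) => ev (c • f) w.tail) =
        fun w => c • ev f w.tail := by
      funext w; exact ev_smul c f _
    rw [e]
    refine (sh_hom (DistribSMul.toAddMonoidHom (MvPolynomial (Fin m) K) c) _ _
      (fun w => ev f w.tail)).symm.trans ?_
    rw [hf' i h0 hi]
    simp

/-- The edge form `f(x₁, x₁ + x₂, …, x₁ + ⋯ + x_r)`. -/
noncomputable def shp {r : ℕ} (f : MvPolynomial (Fin r) K) : MvPolynomial (Fin r) K :=
  ev f (ps 0 (Xs K r))

/-- The edge forms of the elements of `D K r n` which are divisible by `(x₁ + ⋯ + x_r)^k`. -/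
noncomputable def Esp (r n k : ℕ) : Submodule K (MvPolynomial (Fin r) K) where
  carrier := {F | (∃ f ∈ D K r n, F = shp f) ∧ (∑ i, X i) ^ k ∣ F}
  add_mem' := by
    rintro F G ⟨⟨f, hf, rfl⟩, hF⟩ ⟨⟨g, hg, rfl⟩, hG⟩
    exact ⟨⟨f + g, (D K r n).add_mem hf hg, (ev_add f g _).symm⟩, dvd_add hF hG⟩
  zero_mem' := ⟨⟨0, (D K r n).zero_mem, (ev_zero _).symm⟩, dvd_zero _⟩
  smul_mem' := by
    rintro c F ⟨⟨f, hf, rfl⟩, hF⟩
    refine ⟨⟨c • f, (D K r n).smul_mem c hf, (ev_smul c f _).symm⟩, ?_⟩
    rw [smul_eq_C_mul]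
    exact hF.mul_left _

/-- The bound (number of solutions of `c k + r j + a₁ + ⋯ + a_(r-2) = n`). -/
def B (r c n : ℕ) : ℕ := ∑ k ∈ range (n + 1), ∑ j ∈ range (n + 1),
  if c * k + r * j ≤ n then (n - (c * k + r * j) + (r - 3)).choose (r - 3) else 0

/-! ## Part 1: the pieces over `ℤ/2` -/

/-- (helper102) Reversing: `G(q i v)` is the sum of `G(i w)` over the shuffles `w` of the reversed `q` with `v`. -/
def S_ANTI : Prop := ∀ (α M : Type) (_ : AddCommGroup M) (n : ℕ) (G : List α → M), (∀ m : M, m + m = 0) →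
  Lie n G → ∀ (q v : List α) (i : α), q.length + v.length + 1 = n →
    G (q ++ i :: v) = sh q.reverse v (fun w => G (i :: w))

/-- (helper102) If `G` vanishes at all words with the factor `i j` then it vanishes at all words with `i` and `j`. -/
def S_ADJ : Prop := ∀ (α M : Type) (_ : AddCommGroup M) (n : ℕ) (G : List α → M), (∀ m : M, m + m = 0) →
  Lie n G → ∀ (i j : α), (∀ p q : List α, p.length + q.length + 2 = n → G (p ++ i :: j :: q) = 0) →
    ∀ p q t : List α, p.length + q.length + t.length + 2 = n →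
      G (p ++ i :: (q ++ j :: t)) = 0 ∧ G (p ++ j :: (q ++ i :: t)) = 0

/-- (helper102) The key fact: divisibility by all forms of the family. -/
def S_NIL : Prop := ∀ (r k : ℕ) (f : MvPolynomial (Fin r) K), 3 ≤ r → IsLS f →
  (∑ i, X i) ^ k ∣ shp f → ∀ S ∈ fam r, lf S ^ k ∣ shp f

/-- DIV. Proof: `MvPolynomial (Fin m) K` is a UFD, `lf S` is irreducible for nonempty `S`
(`MvPolynomial.irreducible_of_totalDegree_eq_one`), different `S` give different and so non-associated
forms (the units are the nonzero constants, only `1`; compare coefficients of `X i`), hence their powers are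
relatively prime: `Finset.prod_dvd_of_isRelPrime` and `Finset.prod_pow`. -/
def S_DIV : Prop := ∀ (m k : ℕ) (F : MvPolynomial (Fin m) K) (V : Finset (Finset (Fin m))),
  (∀ S ∈ V, S.Nonempty) → (∀ S ∈ V, lf S ^ k ∣ F) → (∏ S ∈ V, lf S) ^ k ∣ F

/-- DIM. The number of the monomials (stars and bars). Any field; only `≤` is needed. -/
def S_DIM : Prop := ∀ m n : ℕ, 1 ≤ m →
  Module.finrank K (homogeneousSubmodule (Fin m) K n) ≤ (n + (m - 1)).choose (m - 1)

/-- LAM. Proof. Let `ρ : Lam (m+1) n → homogeneousSubmodule (Fin m) K n`, `ρ q = ev q (G0 m)` (substitute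
`x₁ = x₂ + ⋯ + x_(m+1)`); `rank + nullity`. Let `ρ q = 0`. Then `σ = ∑ X i` divides `q` (`q` is congruent
mod `σ` to `q` with `x₁` replaced by the sum of the others). Let `A` be a commutative `K`-algebra and for
a list `w` over `A` let `G w = ev q w.tail` if `w.sum = 0` and `w.length = m + 2`, and `G w = 0` otherwise.
Then `Lie (m+2) G`: every list `u ++ v` of length `m + 2` with sum `0` is the image of `G0 (m+1)` under the algebra map
`X i ↦` (tail) (characteristic two: head = sum of the tail), use `CH q`, `sh_map`, `sh_hom`, `ev_map` (as in `IsLS.lie`), and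
`sh_congr` (all rearrangements have the same sum); if the sum is not `0` all terms are `0`. Moreover
`G (0 :: w) = 0` (`σ ∣ q`). So by S_ANTI `G` vanishes at every list containing the letter `0`. Take
`A = MvPolynomial (Fin (m+1)) K ⧸ (X i)` and the image of `G0 (m+1)`: so `X i ∣ q` for all `i`. By S_DIV (`V` = all
singletons and `univ`, `k = 1`; they are different as `m + 1 ≥ 2`) `e = σ ∏ X i` divides `q`, `q = e q'`, `q'` homogeneous
of degree `n - (m + 2)` (if `q ≠ 0`; `q = 0` if `n < m + 2`). For every rearrangement `w` of `G0 (m+1)`: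
`ev e w.tail = w.tail.sum * w.tail.prod = w.prod = e`. So (`sh_congr`) `e * sh … (ev q' ·.tail) = sh … (ev q ·.tail) = 0`, so `CH q'`.
So `ker ρ` is contained in `e * Lam (m+1) (n - (m+2))`. -/
def S_LAM : Prop := S_ANTI → S_DIV → ∀ m n : ℕ, 1 ≤ m →
  Module.finrank K (Lam (m + 1) n) ≤
    (if m + 2 ≤ n then Module.finrank K (Lam (m + 1) (n - (m + 2))) else 0) +
      Module.finrank K (homogeneousSubmodule (Fin m) K n)

/-- FIL. Let `c = (fam (m+1)).card`, `P = ∏_{S ∈ fam (m+1)} lf S` (homogeneous of degree `c`, nonzero). By S_NIL and S_DIV `P^k`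
divides every `F ∈ Esp (m+1) n k`; so `Esp = 0` if `k c > n`. Otherwise let `V'` be the space of the homogeneous `F'` of degree
`n - k c` with `P^k F' ∈ Esp (m+1) n k`; multiplication by `P^k` is a bijection `V' → Esp (m+1) n k`. For a rearrangement `w` of
`Xs K (m+1)` we have `ev P w = P` (a permutation of the variables permutes `fam`), so by `sh_congr`
`P^k * sh (take i Xs) (drop i Xs) (ev F') = sh … (ev (P^k F')) = 0` (`IsLS.lie'`; note `ev (shp f) w = ev f (ps 0 w)`), so
`sh (take i Xs) (drop i Xs) (ev F') = 0`, and so (substitution as in `IsLS.lie`) `Lie (m+1) (ev F')` in every algebra. Let `φ F' = ev F' (G0 m)`.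
It is homogeneous of degree `n - k c` and for a rearrangement `w` of `G0 m` (sum `0`, characteristic two)
`ev (φ F') w.tail = ev F' (w.tail.sum :: w.tail) = ev F' w`; so `CH (φ F')`, `φ F' ∈ Lam m (n - k c)`. If `φ F' = 0` then
`σ = ∑ X i` divides `F'`, so `σ^(k+1)` divides `P^k F'` (as `univ ∈ fam`), and `P^k F' ∈ Esp (m+1) n (k+1)`. Rank + nullity. -/
def S_FIL : Prop := S_NIL → S_DIV → ∀ m n k : ℕ, 2 ≤ m →
  Module.finrank K (Esp (m + 1) n k) ≤ Module.finrank K (Esp (m + 1) n (k + 1)) +
    (if k * (fam (m + 1)).card ≤ n then Module.finrank K (Lam m (n - k * (fam (m + 1)).card)) else 0)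

/-- CNT. `finrank (D K r n) = finrank (Esp r n 0)` (`f ↦ shp f` is injective: it is the automorphism `x_i ↦ x₁ + ⋯ + x_i`),
`Esp r n (n+1) = 0` (degrees), iterate S_FIL and S_LAM. -/
def S_CNT : Prop := S_FIL → S_NIL → S_DIV → S_LAM → S_ANTI → S_DIM → ∀ r n : ℕ, 3 ≤ r →
  Module.finrank K (D K r n) ≤ B r (fam r).card n

/-- CARD. -/
def S_CARD : Prop := ∀ r : ℕ, 4 ≤ r → (fam r).card = (r + 1) * (r + 2) / 2

/-- ASY. From `w (s+1) t^s ≤ (t+w)^(s+1) - t^(s+1)` (telescoping sums); `choose (x + s) s * s! ≤ (x + s)^s`. -/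
def S_ASY : Prop := ∀ r c n : ℕ, 3 ≤ r → 1 ≤ c →
  c * r.factorial * B r c n ≤ (n + c + 2 * r - 3) ^ (r - 1)

/-- RED. Reduction mod 2. Proof: let `M` be the `ℤ`-module of the `z ∈ MvPolynomial (Fin r) ℤ` with `map z ∈ D ℚ r n`; it is a
submodule of the free finite module of the homogeneous polynomials of degree `n` over `ℤ`, so it has a finite basis `b` (PID). (1) For `z ∈ M`
the image of `z` in `MvPolynomial (Fin r) K` is in `D K r n` (the shuffle sums vanish over `ℤ`, since `ℤ → ℚ` is
injective; `sh` and `ev` commute with `MvPolynomial.map`). (2) The images of the `b i` mod 2 are independent: if `∑ c_i b_i ≡ 0` with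
`c_i ∈ {0, 1}` then `∑ c_i b_i = 2 z`, `z ∈ M`, `z = ∑ n_i b_i`, `c_i = 2 n_i`, `c_i = 0`. (3) The `b i` span `D ℚ r n`
over `ℚ` (clear denominators). So `finrank ℚ ≤ #b ≤ finrank K`. -/
def S_RED : Prop := ∀ r n : ℕ, Module.finrank ℚ (D ℚ r n) ≤ Module.finrank K (D K r n)

/-! ## Part 2: the double shuffle Lie algebra `dm` -/

open Pool.Agent.H777R4.DM (LieX co wordX AY Prim)

/-- suffix sums `[a₁ + ⋯ + a_r, a₂ + ⋯ + a_r, …, a_r]` -/
def ss {A : Type} [AddCommMonoid A] : List A → List A
  | [] => []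
  | a :: l => (a + l.sum) :: ss l

/-- `∑ a₁^(k₁) ⋯ a_r^(k_r) c(k₁, …, k_r)` over `k₁ + ⋯ + k_r = n` -/
def Mv {A : Type} [CommRing A] : ℕ → List A → (List ℕ → A) → A
  | n, [], c => if n = 0 then c [] else 0
  | n, a :: l, c => ∑ k ∈ range (n + 1), a ^ k * Mv (n - k) l (fun w => c (k :: w))

/-- the sum of `a₁^(k₁) ⋯ a_r^(k_r) β(x₀^(k₁) x₁ ⋯ x₀^(k_r) x₁)` over the words of length `N` -/
def Wt {A : Type} [CommRing A] : ℕ → List A → (List (Fin 2) → A) → A
  | 0, [], β => β []
  | 0, _ :: _, _ => 0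
  | _ + 1, [], _ => 0
  | N + 1, a :: l, β => Wt N l (fun w => β (1 :: w)) + a * Wt N (a :: l) (fun w => β (0 :: w))

/-- REV. Prove the recursion for the last letters, `sh (u ++ [a]) (v ++ [b]) G = sh u (v ++ [b]) (G (· ++ [a])) + sh (u ++ [a]) v (G (· ++ [b]))`,
by induction on the total length. -/
def S_REV : Prop := ∀ (α M : Type) (_ : AddCommMonoid M) (u v : List α) (G : List α → M),
  sh u v (fun w => G w.reverse) = sh u.reverse v.reverse G

/-- LSH. Lie elements are killed by shuffles. `co (P Q) w = ∑` over the factorizations `w = w₁ w₂` of `co P w₁ * co Q w₂`, so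
`sh p q (co (P Q)) = ∑` over `p = p₁ p₂`, `q = q₁ q₂` of `sh p₁ q₁ (co P) * sh p₂ q₂ (co Q)`; if `P`, `Q` have no constant term and are
killed by the shuffles only the terms with `p₁ q₁ ∈ {p, q}` remain, and they cancel in `P Q - Q P`. Induction over `LieX`
(`LieSubalgebra.lieSpan_induction`), statement `co P [] = 0 ∧ ∀ p q ≠ [], sh p q (co P) = 0`. -/
def S_LSH : Prop := ∀ ψ ∈ LieX, ∀ p q : List (Fin 2), p ≠ [] → q ≠ [] → sh p q (co ψ) = 0

/-- PRS. Elements primitive for `shΔ` are killed by shuffles: the coefficient of `(k, k')` in `shΔ (wd w)` is the number of ways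
to obtain `w` as a shuffle of `k` and `k'`, so the coefficient of `(k, k')` in `shΔ P` is `sh k k' (co P)` (induction on the word,
linearity). -/
def S_PRS : Prop := ∀ P : AY, Prim P → ∀ k k' : List ℕ, k ≠ [] → k' ≠ [] → sh k k' (co P) = 0

/-- PML. `sh u v (Mv n · c) = ∑_{i ≤ n} Mv i u (fun k => Mv (n - i) v (fun k' => sh k k' c))` for all `c`, by induction on the total
length of `u` and `v`. -/
def S_PML : Prop := ∀ (A : Type) (_ : CommRing A) (n r : ℕ) (c : List ℕ → A),
  (∀ k k' : List ℕ, k ≠ [] → k' ≠ [] → k.length + k'.length = r → sh k k' c = 0) →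
    Lie r (fun w : List A => Mv n w c)

/-- GEN. For all `β`: `sh u v (fun w => Wt N (ss w) β) = ∑_{i ≤ N} Wt i (ss u) (fun p => Wt (N - i) (ss v) (fun q => sh p q β))`, by induction
on `N` (all `u, v, β`): both sides satisfy, for `u = a u'`, `v = b v'`, `E(N+1, u, v, β) = E(N, u', v, β(1·)) + E(N, u, v', β(1·)) +
(a + u'.sum + b + v'.sum) E(N, u, v, β(0·))`, all `w` in the shuffles have the same sum. (`Wt M` of a nonempty list sees only words of length
`M`; the words `p`, `q` are nonempty if `u`, `v` are.) -/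
def S_GEN : Prop := ∀ (A : Type) (_ : CommRing A) (N r : ℕ) (β : List (Fin 2) → A),
  (∀ p q : List (Fin 2), p ≠ [] → q ≠ [] → p.length + q.length = N → sh p q β = 0) →
    Lie r (fun w : List A => Wt N (ss w) β)

/-- WM. Induction on `N` and `l`. -/
def S_WM : Prop := ∀ (A : Type) (_ : CommRing A) (N : ℕ) (l : List A) (β : List (Fin 2) → A), l.length ≤ N →
  Wt N l β = Mv (N - l.length) l (fun k => β (wordX k))

end Run7.h102.LS
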